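import Pool.Agent.H3.W.W12

/-!
# A Weyl bound in the full analytic conductor for Hecke L-functions of all number fields

`K` is any number field, `m = [K : ℚ]`, and `χ` is any primitive unitary Hecke character of `K`
modulo `𝔪 = 𝔞 𝔰 𝔰'`, where `𝔰'` divides `𝔰` and every prime divisor of `𝔰'` divides `𝔞`
(`𝔪 = (1)` is allowed), of any infinite type
`∏_v (σ_v α / |σ_v α|) ^ k_v |σ_v α| ^ (i τ_v)`.  Then `L(s, χ) = ∑_I χ(I) N(I)^(-s)` has a
meromorphic continuation, holomorphic off the line `re s = 1` (entire if `𝔪 ≠ (1)`), and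

`|L(1/2 + i t, χ)| ≤ C(K, ε) (N(𝔪) 𝒯)^ε 𝒯^(1/6) (N𝔞 + N𝔰)^(1/2)`,

where `𝒯 = ∏_(v real) (1 + |τ_v - t|) ∏_(v complex) (1 + |τ_v - 2 t| + |k_v|) ^ 2` is, up to
constants, the archimedean part of the analytic conductor of `L(1/2 + i t, χ)`.  The bound is
uniform in all parameters `𝔪`, `k_v`, `τ_v`, `t`; no relation between the sizes of the parameters at
the different places is assumed.  With `𝔞 = 𝔰 = 𝔰' = 𝔫` it reads

`|L(1/2 + i t, χ)| ≤ C(K, ε) (N(𝔪) 𝒯)^(1/6 + ε)` for all characters of conductor `𝔪 = 𝔫³`,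

the bound of Weyl in the full analytic conductor `N(𝔪) 𝒯`.

Proof (modules `Pool.Agent.H3.W`, which use the modules `T2H29.SW`, `T2H29.TA` of the library): put
`𝔪 = 𝔣 𝔞' 𝔰 𝔰'` with `𝔣` coprime to `𝔰`.  The sums over an ideal `I` are differenced within the
classes modulo `𝔣 𝔞'`, over lattice elements of `𝔣 𝔞' I` of relative size `T_v^(-1/3)` at each
place `v`, `T_v` the size of the parameters at `v`.  The differenced sums are completed modulo
`𝔰 𝔰'` and transformed by Poisson summation at all infinite places; the local integrals are bounded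
by the second derivative, uniformly in the parameters, the complete sums by the number of stationary
points, and the sums over the shifts use that all ideal lattices are balanced in all directions.
Sums with more than `N(𝔰 𝔰') 𝒯^(2/3)` terms are completed at once, with Gauss sums.
-/

set_option autoImplicit false

open NumberField NumberField.InfinitePlace

namespace Pool.Agent.Results.MP_52e316_nt.HeckeWeylConductorGLm

variable {K : Type} [Field K] [NumberField K]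

/-- The unitary character `α ↦ ∏_v (σ_v α / |σ_v α|) ^ k_v |σ_v α| ^ (i τ_v)`; `σ_v` is an
embedding for the infinite place `v` and `|σ_v α| = v α`.  At a real place the first factor is the
`k_v`-th power of the sign. -/
noncomputable def infType (k : InfinitePlace K → ℤ) (τ : InfinitePlace K → ℝ) (α : K) : ℂ :=
  ∏ v : InfinitePlace K, (v.embedding α / ((v α : ℝ) : ℂ)) ^ k v *
    ((v α : ℝ) : ℂ) ^ ((τ v : ℂ) * Complex.I)

/-- `χ` is a primitive unitary Hecke character of `K` modulo `𝔪` of infinite type given by `k` and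
`τ`, extended by zero to the zero ideal and to the ideals not coprime to `𝔪`. -/
structure IsPrimitiveHecke (𝔪 : Ideal (𝓞 K)) (k : InfinitePlace K → ℤ)
    (τ : InfinitePlace K → ℝ) (χ : Ideal (𝓞 K) →* ℂ) : Prop where
  /-- it vanishes at the zero ideal and at the ideals not coprime to `𝔪` -/
  zero : ∀ I, I = ⊥ ∨ ¬ IsCoprime I 𝔪 → χ I = 0
  /-- it is unitary -/
  norm : ∀ I, I ≠ ⊥ → IsCoprime I 𝔪 → ‖χ I‖ = 1
  /-- the values at the principal ideals `(α)`, `α ≡ 1` modulo `𝔪` -/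
  infinite_type : ∀ α : 𝓞 K, α ≠ 0 → α - 1 ∈ 𝔪 → χ (Ideal.span {α}) = infType k τ (α : K)
  /-- it does not have this property modulo any larger ideal `𝔫` -/
  primitive : ∀ 𝔫 : Ideal (𝓞 K), 𝔪 < 𝔫 → ∃ α : 𝓞 K, α - 1 ∈ 𝔫 ∧
    IsCoprime (Ideal.span {α}) 𝔪 ∧ χ (Ideal.span {α}) ≠ infType k τ (α : K)

open scoped Classical in
/-- The archimedean part of the analytic conductor at height `t`:
`∏_(v real) (1 + |τ_v - t|) ∏_(v complex) (1 + |τ_v - 2 t| + |k_v|) ^ 2`. -/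
noncomputable def archCond (k : InfinitePlace K → ℤ) (τ : InfinitePlace K → ℝ) (t : ℝ) : ℝ :=
  ∏ v : InfinitePlace K, if IsReal v then 1 + |τ v - t| else (1 + |τ v - 2 * t| + |(k v : ℝ)|) ^ 2

lemma VT_le (k : InfinitePlace K → ℤ) (τ : InfinitePlace K → ℝ) (t : ℝ) :
    Pool.Agent.H3.W.VT (Pool.Agent.T2H29.SW.shp (k, τ) t) ≤ archCond k τ t := by
  classical
  unfold Pool.Agent.H3.W.VT archCond
  refine Finset.prod_le_prod (fun v _ => ?_) fun v _ => ?_
  · have := Pool.Agent.H3.W.Ta_pos (Pool.Agent.T2H29.SW.shp (k, τ) t) v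
    positivity
  · unfold Pool.Agent.H3.W.Ta Pool.Agent.T2H29.SW.shp Pool.Agent.T2H29.TA.tp
    by_cases h : IsReal v
    · simp only [h, decide_true, if_true, Pool.Agent.T2H29.TA.cp]
      rw [Complex.norm_real, Real.norm_eq_abs, mult, if_pos h, pow_one, Nat.cast_one, one_mul]
    · simp only [h, decide_false, if_false, Pool.Agent.T2H29.TA.cp, mult]
      refine pow_le_pow_left₀ (by positivity) ?_ 2
      have h1 : ‖((τ v - (2 : ℕ) * t : ℝ) : ℂ) - (k v : ℂ) * Complex.I‖ ≤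
          |τ v - 2 * t| + |(k v : ℝ)| := by
        refine (norm_sub_le _ _).trans ?_
        rw [norm_mul, Complex.norm_I, mul_one, Complex.norm_real, Real.norm_eq_abs,
          Complex.norm_intCast]
        push_cast
        exact le_rfl
      linarith

theorem result (K : Type) [Field K] [NumberField K] (ε : ℝ) (hε : 0 < ε) : ∃ C : ℝ, 0 < C ∧
    ∀ (𝔪 𝔞 𝔰 𝔰' : Ideal (𝓞 K)) (k : InfinitePlace K → ℤ) (τ : InfinitePlace K → ℝ)
    (χ : Ideal (𝓞 K) →* ℂ),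
    𝔪 ≠ ⊥ → 𝔪 = 𝔞 * 𝔰 * 𝔰' → 𝔰' ∣ 𝔰 →
    (∀ P : Ideal (𝓞 K), P.IsPrime → P ∣ 𝔰' → P ∣ 𝔞) → IsPrimitiveHecke 𝔪 k τ χ →
    ∃ L : ℂ → ℂ, MeromorphicOn L Set.univ ∧ (∀ s : ℂ, s.re ≠ 1 → DifferentiableAt ℂ L s) ∧
    (𝔪 ≠ ⊤ → Differentiable ℂ L) ∧
    (∀ s : ℂ, 1 < s.re →
      HasSum (fun I : Ideal (𝓞 K) => χ I * (Ideal.absNorm I : ℂ) ^ (-s)) (L s)) ∧
    ∀ t : ℝ, ‖L (1 / 2 + t * Complex.I)‖ ≤
      C * (Ideal.absNorm 𝔪 * archCond k τ t) ^ ε * archCond k τ t ^ (1 / 6 : ℝ) *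
        √(Ideal.absNorm 𝔞 + Ideal.absNorm 𝔰) := by
  have hε' : 0 < min ε 1 := lt_min hε one_pos
  obtain ⟨C1, hC10, hC1⟩ := Pool.Agent.H3.W.fin_ram K hε' (min_le_right _ _)
  obtain ⟨C2, hC20, hC2⟩ := Pool.Agent.H3.W.main_unr K hε' (min_le_right _ _)
  refine ⟨C1 + C2, by positivity, fun 𝔪 𝔞 𝔰 𝔰' k τ χ hbot hm hs hP hχ => ?_⟩
  have hinf : ∀ α : 𝓞 K, α ≠ 0 → Pool.Agent.T2H29.SW.infK (k, τ) (α : K) = infType k τ (α : K) :=
    fun α hα => Pool.Agent.T2H29.SW.infK_ityp (k, τ) (by exact_mod_cast hα)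
  have hQ1 : (1 : ℝ) ≤ Ideal.absNorm 𝔪 := by
    exact_mod_cast Pool.Agent.T2H29.SW.nrm_pos hbot
  have hVA : ∀ t, Pool.Agent.H3.W.VT (Pool.Agent.T2H29.SW.shp (k, τ) t) ≤ archCond k τ t :=
    VT_le k τ
  have hV1 : ∀ t, 1 ≤ Pool.Agent.H3.W.VT (Pool.Agent.T2H29.SW.shp (k, τ) t) := fun t =>
    Pool.Agent.H3.W.VT_one _
  have ha0 : 𝔞 ≠ ⊥ := by
    rintro rfl
    apply hbot
    rw [hm, Ideal.bot_mul, Ideal.bot_mul]
  have hNa1 : (1 : ℝ) ≤ Ideal.absNorm 𝔞 := by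
    exact_mod_cast Pool.Agent.T2H29.SW.nrm_pos ha0
  have hR1 : 1 ≤ √((Ideal.absNorm 𝔞 : ℝ) + Ideal.absNorm 𝔰) := by
    rw [Real.one_le_sqrt]
    have : (0 : ℝ) ≤ Ideal.absNorm 𝔰 := Nat.cast_nonneg _
    linarith
  -- the bounds in terms of `archCond`
  have hb : ∀ t, ((Ideal.absNorm 𝔪 : ℝ) * Pool.Agent.H3.W.VT (Pool.Agent.T2H29.SW.shp (k, τ) t)) ^
      min ε 1 * Pool.Agent.H3.W.VT (Pool.Agent.T2H29.SW.shp (k, τ) t) ^ (1 / 6 : ℝ) ≤
      (Ideal.absNorm 𝔪 * archCond k τ t) ^ ε * archCond k τ t ^ (1 / 6 : ℝ) := by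
    intro t
    have h1 := hV1 t
    have h2 := hVA t
    set V := Pool.Agent.H3.W.VT (Pool.Agent.T2H29.SW.shp (k, τ) t)
    set Q := (Ideal.absNorm 𝔪 : ℝ)
    have hV0 : 0 < V := by linarith
    have hQ0 : 0 < Q := by linarith
    have hQV : 1 ≤ Q * V := one_le_mul_of_one_le_of_one_le hQ1 h1
    have h3 : (Q * V) ^ min ε 1 ≤ (Q * archCond k τ t) ^ ε := by
      calc (Q * V) ^ min ε 1 ≤ (Q * V) ^ ε :=
            Real.rpow_le_rpow_of_exponent_le hQV (min_le_left _ _)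
        _ ≤ _ := Real.rpow_le_rpow (by positivity) (mul_le_mul_of_nonneg_left h2 hQ0.le) hε.le
    have h4 : V ^ (1 / 6 : ℝ) ≤ archCond k τ t ^ (1 / 6 : ℝ) :=
      Real.rpow_le_rpow hV0.le h2 (by norm_num)
    exact mul_le_mul h3 h4 (by positivity) ((by positivity : (0 : ℝ) ≤ (Q * V) ^ min ε 1).trans h3)
  by_cases htop : 𝔪 = ⊤
  · subst htop
    have hU : Pool.Agent.T2H29.TA.HU (k, τ) χ := by
      refine ⟨hχ.zero _ (Or.inl rfl), fun I hI => hχ.norm I hI ?_, fun α hα => ?_⟩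
      · rw [Ideal.isCoprime_iff_sup_eq]
        exact sup_top_eq _
      · rw [hinf α hα]
        exact hχ.infinite_type α hα Submodule.mem_top
    obtain ⟨L, hL1, hL2, hL3, hL4⟩ := hC2 (k, τ) χ hU
    refine ⟨L, hL1, hL2, fun h => absurd rfl h, hL3, fun t => (hL4 t).trans ?_⟩
    have h1 := hV1 t
    have h2 := hb t
    simp only [Ideal.absNorm_top, Nat.cast_one, one_mul] at h2 ⊢
    set V := Pool.Agent.H3.W.VT (Pool.Agent.T2H29.SW.shp (k, τ) t)
    have hV0 : 0 < V := by linarith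
    set X := archCond k τ t ^ ε * archCond k τ t ^ (1 / 6 : ℝ) with hX
    have hX0 : 0 ≤ X := (by positivity : (0 : ℝ) ≤ V ^ min ε 1 * V ^ (1 / 6 : ℝ)).trans h2
    calc C2 * (V ^ min ε 1 * V ^ (1 / 6 : ℝ)) ≤ C2 * X := mul_le_mul_of_nonneg_left h2 hC20.le
      _ ≤ (C1 + C2) * X * √((Ideal.absNorm 𝔞 : ℝ) + Ideal.absNorm 𝔰) := by
          calc C2 * X ≤ (C1 + C2) * X := mul_le_mul_of_nonneg_right (by linarith) hX0
            _ ≤ _ := le_mul_of_one_le_right (by positivity) hR1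
      _ = _ := by rw [hX]; ring
  · have hmm : Pool.Agent.T2H29.SW.HeckeM (𝔞 * 𝔰 * 𝔰') (k, τ) χ := by
      rw [← hm]
      refine ⟨fun I hI => hχ.zero I (Or.inr hI), fun I hI => hχ.norm I ?_ hI, ?_, ?_⟩
      · rintro rfl
        rw [Ideal.isCoprime_iff_sup_eq, bot_sup_eq] at hI
        exact htop hI
      · intro α hα
        have h0 : α ≠ 0 := by
          rintro rfl
          apply htop
          rw [Ideal.eq_top_iff_one]
          have := neg_mem hα
          simpa using this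
        rw [hinf α h0]
        exact hχ.infinite_type α h0 hα
      · intro 𝔫 h𝔫
        obtain ⟨α, h1, h2, h3⟩ := hχ.primitive 𝔫 h𝔫
        refine ⟨α, h1, h2, ?_⟩
        rw [hinf α (Pool.Agent.T2H29.SW.cop_ne htop h2)]
        exact h3
    obtain ⟨L, hL1, hL2, hL3⟩ := hC1 𝔞 𝔰 𝔰' (k, τ) χ (hm ▸ hbot) (hm ▸ htop)
      (Ideal.le_of_dvd hs) (fun P hP1 hP2 => Ideal.le_of_dvd (hP P hP1 (Ideal.dvd_iff_le.2 hP2)))
      hmm
    refine ⟨L, fun s _ => (hL1.analyticAt s).meromorphicAt, fun s _ => hL1 s, fun _ => hL1, hL2,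
      fun t => (hL3 t).trans ?_⟩
    rw [← hm]
    have h1 := hV1 t
    have h2 := hb t
    set V := Pool.Agent.H3.W.VT (Pool.Agent.T2H29.SW.shp (k, τ) t)
    set Q := (Ideal.absNorm 𝔪 : ℝ)
    have hV0 : 0 < V := by linarith
    have hQ0 : 0 < Q := by linarith
    set X := (Q * archCond k τ t) ^ ε * archCond k τ t ^ (1 / 6 : ℝ) with hX
    have hX0 : 0 ≤ X := (by positivity : (0 : ℝ) ≤ (Q * V) ^ min ε 1 * V ^ (1 / 6 : ℝ)).trans h2
    calc C1 * ((Q * V) ^ min ε 1 * V ^ (1 / 6 : ℝ) *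
          √((Ideal.absNorm 𝔞 : ℝ) + Ideal.absNorm 𝔰)) ≤
        C1 * (X * √((Ideal.absNorm 𝔞 : ℝ) + Ideal.absNorm 𝔰)) := by
          refine mul_le_mul_of_nonneg_left ?_ hC10.le
          exact mul_le_mul_of_nonneg_right h2 (Real.sqrt_nonneg _)
      _ ≤ (C1 + C2) * (X * √((Ideal.absNorm 𝔞 : ℝ) + Ideal.absNorm 𝔰)) :=
          mul_le_mul_of_nonneg_right (by linarith) (by positivity)
      _ = _ := by rw [hX]; ring

end Pool.Agent.Results.MP_52e316_nt.HeckeWeylConductorGLm
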